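import Pool.Agent.V11266.FillPos
import Pool.Agent.V11266.FillA
import Pool.Agent.V11266.FillC

/-!
MP_9641f2_gt: factors of a product under a subspace filling its subproducts.
Answers: paracompact, countable filling: yes; paracompact, finite filling: no;
normal: no (both); completely regular: no (both).
-/

namespace Pool.Agent.Results.MP_9641f2_gt.FillingSubproducts

open Set Topology Filter Pool.Agent.V11266.Fill

universe u v

theorem card_lt : Cardinal.mk ℝ < Cardinal.mk (Set ℝ) := by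
  rw [Cardinal.mk_set]
  exact Cardinal.cantor _

theorem part_b : ∃ (I : Type) (X : I → Type) (_ : ∀ i, TopologicalSpace (X i))
    (D : Set (∀ i, X i)), T1Space (∀ i, X i) ∧ FillsCountable D ∧ FillsFinite D ∧
      IsNormalT1 D ∧ ∃ i, ¬ IsNormalT1 (X i) := by
  let τ := famTop ℝ (TS ℝ (Set ℝ)) (Option (Set ℝ)) inferInstance inferInstance
  have hne : Nonempty (TS ℝ (Set ℝ)) := ⟨TS.q ∅⟩
  have hfill : FillsCountable (famHomeo ⁻¹' (DD ℝ (code (I := ℝ) (L := Set ℝ)))) := by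
    intro J' _ hJ'
    exact fam_fill (J := ℝ) (code (I := ℝ) (L := Set ℝ)) (fun A => A.Countable)
      (fun A B hAB hB => hB.mono hAB) J' (hJ'.preimage (Option.some_injective ℝ))
  refine ⟨Option ℝ, Fam ℝ (TS ℝ (Set ℝ)) (Option (Set ℝ)), τ,
    famHomeo ⁻¹' (DD ℝ (code (I := ℝ) (L := Set ℝ))), fam_t1, hfill, hfill.finite, ?_, none,
    TS.not_normal card_lt⟩
  have hN : IsNormalT1 (DD ℝ (code (I := ℝ) (L := Set ℝ))) := by
    refine ⟨inferInstance, fun F G hF hG hFG => ?_⟩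
    obtain ⟨W, h1, h2, h3, h4⟩ := DD_normal F G hF hG hFG
    exact ⟨W, Wᶜ, h1, h2, h3, h4, disjoint_compl_right⟩
  exact hN.homeo (Homeomorph.subtype (p := fun x => x ∈ famHomeo ⁻¹' (DD ℝ code))
    (q := fun z => z ∈ DD ℝ (code (I := ℝ) (L := Set ℝ))) famHomeo (fun x => Iff.rfl))

theorem part_c : ∃ (I : Type) (X : I → Type) (_ : ∀ i, TopologicalSpace (X i))
    (D : Set (∀ i, X i)), T1Space (∀ i, X i) ∧ FillsCountable D ∧ FillsFinite D ∧
      IsCompletelyRegularT1 D ∧ ∃ i, ¬ IsCompletelyRegularT1 (X i) := by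
  let τ := famTop ℝ (XS ℝ (Set ℝ)) (Option (Set ℝ)) inferInstance inferInstance
  have hne : Nonempty (XS ℝ (Set ℝ)) := ⟨XS.a⟩
  have hfill : FillsCountable (famHomeo ⁻¹' (DD ℝ (codeX (I := ℝ) (L := Set ℝ)))) := by
    intro J' _ hJ'
    exact fam_fill (J := ℝ) (codeX (I := ℝ) (L := Set ℝ)) (fun A => A.Countable)
      (fun A B hAB hB => hB.mono hAB) J' (hJ'.preimage (Option.some_injective ℝ))
  refine ⟨Option ℝ, Fam ℝ (XS ℝ (Set ℝ)) (Option (Set ℝ)), τ,
    famHomeo ⁻¹' (DD ℝ (codeX (I := ℝ) (L := Set ℝ))), fam_t1, hfill, hfill.finite, ?_, none,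
    XS.not_completelyRegular card_lt⟩
  have hN : IsCompletelyRegularT1 (DD ℝ (codeX (I := ℝ) (L := Set ℝ))) := by
    refine ⟨inferInstance, fun F x hF hx => ?_⟩
    obtain ⟨W, hW, hxW, hWF⟩ := DDX_clopen x Fᶜ (hF.isOpen_compl.mem_nhds hx)
    refine ⟨LocallyConstant.charFn ℝ hW, (LocallyConstant.charFn ℝ hW).continuous, ?_, ?_⟩
    · exact (LocallyConstant.charFn_eq_one ℝ x hW).2 hxW
    · intro y hy
      exact (LocallyConstant.charFn_eq_zero ℝ y hW).2 (fun h => hWF h hy)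
  exact hN.homeo (Homeomorph.subtype (p := fun x => x ∈ famHomeo ⁻¹' (DD ℝ codeX))
    (q := fun z => z ∈ DD ℝ (codeX (I := ℝ) (L := Set ℝ))) famHomeo (fun x => Iff.rfl))

/-- the underlying set of `TS ℝ (Set ℝ)` with the discrete topology -/
def TSd : Type := TS ℝ (Set ℝ)

instance tsdTop : TopologicalSpace TSd := ⊥
instance tsdDisc : DiscreteTopology TSd := ⟨rfl⟩

theorem part_a_finite : ∃ (I : Type) (X : I → Type) (_ : ∀ i, TopologicalSpace (X i))
    (D : Set (∀ i, X i)), T1Space (∀ i, X i) ∧ FillsFinite D ∧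
      IsParacompactT2 D ∧ ∃ i, ¬ IsParacompactT2 (X i) := by
  let τ := famTop ℕ (TS ℝ (Set ℝ)) TSd inferInstance inferInstance
  have hne : Nonempty (TS ℝ (Set ℝ)) := ⟨TS.q ∅⟩
  let c : TS ℝ (Set ℝ) → TSd := fun x => x
  have hfill : FillsFinite (famHomeo ⁻¹' (DF ℕ c)) := by
    intro J' _ hJ'
    exact fam_fill (J := ℕ) c (fun A => A.Finite)
      (fun A B hAB hB => hB.subset hAB) J' (hJ'.preimage (Option.some_injective ℕ).injOn)
  refine ⟨Option ℕ, Fam ℕ (TS ℝ (Set ℝ)) TSd, τ, famHomeo ⁻¹' (DF ℕ c), fam_t1, hfill, ?_,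
    none, ?_⟩
  · have hP : IsParacompactT2 (DF ℕ c) :=
      ⟨DF_t2 TS.exists_clopen _, DF_paracompact c (fun x y h => h) TS.exists_clopen⟩
    exact hP.homeo (Homeomorph.subtype (p := fun x => x ∈ famHomeo ⁻¹' (DF ℕ c))
      (q := fun z => z ∈ DF ℕ c) famHomeo (fun x => Iff.rfl))
  · rintro ⟨h1, h2⟩
    refine TS.not_normal card_lt ⟨inferInstance, fun F G hF hG hFG => ?_⟩
    have h1 : T2Space (TS ℝ (Set ℝ)) := h1
    have h2 : ParacompactSpace (TS ℝ (Set ℝ)) := h2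
    obtain ⟨U, V, hU, hV, h3, h4, h5⟩ := normal_separation hF hG hFG
    exact ⟨U, V, hU, hV, h3, h4, h5⟩

/-- The three questions, in the countable and in the finite version. -/
theorem result :
    (∀ (I : Type u) (X : I → Type v) [∀ i, TopologicalSpace (X i)] (D : Set (∀ i, X i)),
        T1Space (∀ i, X i) → FillsCountable D → IsParacompactT2 D →
          (Nonempty I → D = Set.univ) ∧ ∀ i, IsParacompactT2 (X i)) ∧
    (∃ (I : Type) (X : I → Type) (_ : ∀ i, TopologicalSpace (X i)) (D : Set (∀ i, X i)),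
        T1Space (∀ i, X i) ∧ FillsFinite D ∧ IsParacompactT2 D ∧
          ∃ i, ¬ IsParacompactT2 (X i)) ∧
    (∃ (I : Type) (X : I → Type) (_ : ∀ i, TopologicalSpace (X i)) (D : Set (∀ i, X i)),
        T1Space (∀ i, X i) ∧ FillsCountable D ∧ FillsFinite D ∧ IsNormalT1 D ∧
          ∃ i, ¬ IsNormalT1 (X i)) ∧
    (∃ (I : Type) (X : I → Type) (_ : ∀ i, TopologicalSpace (X i)) (D : Set (∀ i, X i)),
        T1Space (∀ i, X i) ∧ FillsCountable D ∧ FillsFinite D ∧ IsCompletelyRegularT1 D ∧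
          ∃ i, ¬ IsCompletelyRegularT1 (X i)) := by
  refine ⟨fun I X _ D hT1 hD hP => ⟨?_, fun i => (pos_result D hD hP i).2⟩, part_a_finite,
    part_b, part_c⟩
  rintro ⟨i⟩
  exact (pos_result D hD hP i).1

end Pool.Agent.Results.MP_9641f2_gt.FillingSubproducts
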